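import Pool.Agent.Helper16.Part

namespace Pool.Agent.Helper16.Inertia

open Finset

theorem transport {V : Type*} [Fintype V] (G : SimpleGraph V) :
    ∃ (n : ℕ) (H : SimpleGraph (Fin n)), nPlus H = nPlus G ∧ nMinus H = nMinus G :=
  ⟨Fintype.card V, G.comap (Fintype.equivFin V).symm, nPlus_comap _ G, nMinus_comap _ G⟩

theorem half_bound {D j C q a : ℕ} (hjD : j < D) (hq : 2 * C ≤ q) (h : q ^ D ≤ a + C * q ^ j) :
    q ^ D ≤ 2 * a := by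
  have h1 : 2 * (C * q ^ j) ≤ q ^ D := by
    rcases Nat.eq_zero_or_pos q with h0 | h0
    · have : C = 0 := by omega
      subst this; simp
    · calc 2 * (C * q ^ j) = (2 * C) * q ^ j := by ring
        _ ≤ q * q ^ j := Nat.mul_le_mul_right _ hq
        _ = q ^ (j + 1) := by ring
        _ ≤ q ^ D := Nat.pow_le_pow_right h0 hjD
  omega

theorem power_law (D j C : ℕ) (hj : 0 < j) (hjD : j < D)
    (h : ∀ q : ℕ, 1 ≤ q → ∃ (n : ℕ) (G : SimpleGraph (Fin n)),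
      q ^ D ≤ nPlus G + C * q ^ j ∧ nMinus G ≤ C * q ^ j) :
    ∃ c : ℝ, 0 < c ∧ ∀ N : ℕ, ∃ (n : ℕ) (G : SimpleGraph (Fin n)),
      N ≤ nPlus G ∧ c * (nMinus G : ℝ) ^ ((D : ℝ) / j) ≤ nPlus G := by
  have hj' : (0 : ℝ) < j := by exact_mod_cast hj
  have hDj : (0 : ℝ) < (D : ℝ) / j := by
    apply div_pos _ hj'
    exact_mod_cast (lt_trans hj hjD)
  refine ⟨1 / (2 * ((C : ℝ) + 1) ^ ((D : ℝ) / j)), by positivity, fun N => ?_⟩
  obtain ⟨n, G, h1, h2⟩ := h (2 * C + 2 * N + 1) (by omega)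
  set q := 2 * C + 2 * N + 1 with hq
  have hqpos : 0 < q := by omega
  have h3 : q ^ D ≤ 2 * nPlus G := half_bound hjD (by omega) h1
  have h4 : q ≤ q ^ D := Nat.le_self_pow (by omega) q
  refine ⟨n, G, by omega, ?_⟩
  have h5 : ((nMinus G : ℝ)) ^ ((D : ℝ) / j) ≤ ((C : ℝ) + 1) ^ ((D : ℝ) / j) * (q : ℝ) ^ D := by
    have h6 : (nMinus G : ℝ) ≤ ((C : ℝ) + 1) * (q : ℝ) ^ j := by
      have : (nMinus G : ℝ) ≤ (C : ℝ) * (q : ℝ) ^ j := by exact_mod_cast h2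
      have h7 : (0 : ℝ) ≤ (q : ℝ) ^ j := by positivity
      nlinarith
    calc (nMinus G : ℝ) ^ ((D : ℝ) / j)
        ≤ (((C : ℝ) + 1) * (q : ℝ) ^ j) ^ ((D : ℝ) / j) :=
          Real.rpow_le_rpow (by positivity) h6 hDj.le
      _ = ((C : ℝ) + 1) ^ ((D : ℝ) / j) * ((q : ℝ) ^ j) ^ ((D : ℝ) / j) :=
          Real.mul_rpow (by positivity) (by positivity)
      _ = ((C : ℝ) + 1) ^ ((D : ℝ) / j) * (q : ℝ) ^ D := by
          congr 1
          rw [← Real.rpow_natCast, ← Real.rpow_mul (by positivity), ← Real.rpow_natCast]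
          congr 1
          field_simp
  have h8 : (q : ℝ) ^ D ≤ 2 * nPlus G := by exact_mod_cast h3
  have hpos : (0 : ℝ) < ((C : ℝ) + 1) ^ ((D : ℝ) / j) := by positivity
  rw [div_mul_eq_mul_div, one_mul, div_le_iff₀ (by positivity)]
  calc (nMinus G : ℝ) ^ ((D : ℝ) / j) ≤ ((C : ℝ) + 1) ^ ((D : ℝ) / j) * (q : ℝ) ^ D := h5
    _ ≤ ((C : ℝ) + 1) ^ ((D : ℝ) / j) * (2 * nPlus G) := by
        exact mul_le_mul_of_nonneg_left h8 hpos.le
    _ = (nPlus G : ℝ) * (2 * ((C : ℝ) + 1) ^ ((D : ℝ) / j)) := by ring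

theorem poly_law (D j C m : ℕ) (hjD : j < D) (hm : m * j < D)
    (h : ∀ q : ℕ, 1 ≤ q → ∃ (n : ℕ) (G : SimpleGraph (Fin n)),
      q ^ D ≤ nPlus G + C * q ^ j ∧ nMinus G ≤ C * q ^ j)
    (f : Polynomial ℝ) (hf : f.natDegree ≤ m) :
    ∃ (n : ℕ) (G : SimpleGraph (Fin n)), f.eval (nMinus G : ℝ) < nPlus G := by
  -- crude bound for the polynomial
  obtain ⟨A, hA0, hA⟩ : ∃ A : ℝ, 0 ≤ A ∧ ∀ x : ℝ, 0 ≤ x → f.eval x ≤ A * (1 + x) ^ m := by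
    refine ⟨∑ i ∈ range (m + 1), |f.coeff i|, Finset.sum_nonneg fun _ _ => abs_nonneg _, ?_⟩
    intro x hx
    rw [Polynomial.eval_eq_sum_range' (Nat.lt_succ_of_le hf), Finset.sum_mul]
    refine Finset.sum_le_sum fun i hi => ?_
    have hi' : i ≤ m := Nat.lt_succ_iff.mp (Finset.mem_range.mp hi)
    have h1 : x ^ i ≤ (1 + x) ^ m := by
      calc x ^ i ≤ (1 + x) ^ i := pow_le_pow_left₀ hx (by linarith) i
        _ ≤ (1 + x) ^ m := pow_le_pow_right₀ (by linarith) hi'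
    calc f.coeff i * x ^ i ≤ |f.coeff i| * x ^ i :=
          mul_le_mul_of_nonneg_right (le_abs_self _) (by positivity)
      _ ≤ |f.coeff i| * (1 + x) ^ m := mul_le_mul_of_nonneg_left h1 (abs_nonneg _)
  obtain ⟨B, hB⟩ := exists_nat_gt (2 * (A * (1 + (C : ℝ)) ^ m))
  obtain ⟨n, G, h1, h2⟩ := h (2 * C + B + 1) (by omega)
  set q := 2 * C + B + 1 with hq
  refine ⟨n, G, ?_⟩
  have hC0 : (0 : ℝ) ≤ (C : ℝ) := Nat.cast_nonneg C
  have hB0 : (0 : ℝ) ≤ (B : ℝ) := Nat.cast_nonneg B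
  have hq1 : (1 : ℝ) ≤ q := by rw [hq]; push_cast; linarith
  have h3 : q ^ D ≤ 2 * nPlus G := half_bound hjD (by omega) h1
  have h8 : (q : ℝ) ^ D ≤ 2 * nPlus G := by exact_mod_cast h3
  have h6 : (nMinus G : ℝ) ≤ (C : ℝ) * (q : ℝ) ^ j := by exact_mod_cast h2
  have hqj : (1 : ℝ) ≤ (q : ℝ) ^ j := one_le_pow₀ hq1
  have h9 : 1 + (nMinus G : ℝ) ≤ (1 + C) * (q : ℝ) ^ j := by linarith
  have h10 : f.eval (nMinus G : ℝ) ≤ A * (1 + (C : ℝ)) ^ m * ((q : ℝ) ^ j) ^ m := by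
    calc f.eval (nMinus G : ℝ) ≤ A * (1 + (nMinus G : ℝ)) ^ m := hA _ (by positivity)
      _ ≤ A * ((1 + C) * (q : ℝ) ^ j) ^ m := by
          apply mul_le_mul_of_nonneg_left _ hA0
          exact pow_le_pow_left₀ (by positivity) h9 m
      _ = _ := by rw [mul_pow]; ring
  have h11 : ((q : ℝ) ^ j) ^ m * q ≤ (q : ℝ) ^ D := by
    rw [← pow_mul, ← pow_succ]
    exact pow_le_pow_right₀ hq1 (by rw [mul_comm] at hm; omega)
  have hBq : 2 * (A * (1 + (C : ℝ)) ^ m) < q := by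
    refine lt_of_lt_of_le hB ?_
    rw [hq]; push_cast
    linarith
  have h12 : 2 * (A * (1 + (C : ℝ)) ^ m * ((q : ℝ) ^ j) ^ m) < 2 * nPlus G := by
    have hp : (0 : ℝ) < ((q : ℝ) ^ j) ^ m := by positivity
    calc 2 * (A * (1 + (C : ℝ)) ^ m * ((q : ℝ) ^ j) ^ m)
        = 2 * (A * (1 + (C : ℝ)) ^ m) * ((q : ℝ) ^ j) ^ m := by ring
      _ < q * ((q : ℝ) ^ j) ^ m := mul_lt_mul_of_pos_right hBq hp
      _ = ((q : ℝ) ^ j) ^ m * q := by ring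
      _ ≤ (q : ℝ) ^ D := h11
      _ ≤ _ := h8
  linarith

end Pool.Agent.Helper16.Inertia
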