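import Pool.Agent.Helper16.Part

namespace Pool.Agent.Helper16.Inertia

open Matrix Finset

/-- Value of a signed list of monomials at a Boolean vector. -/
def evalB {n : ℕ} (L : List (List (Fin n) × ℤ)) (b : Fin n → Bool) : ℤ :=
  (L.map fun t => if t.1.all b then t.2 else 0).sum

theorem evalB_eq_sum {n : ℕ} (L : List (List (Fin n) × ℤ)) (b : Fin n → Bool) :
    evalB L b = ∑ j : Fin L.length, if (L.get j).1.all b then (L.get j).2 else 0 := by
  unfold evalB
  rw [← List.sum_ofFn]
  congr 1
  apply List.ext_getElem
  · simp
  · intro i h1 h2
    simp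

/-- Number of negative monomials of length `k`. -/
def negWeight {n : ℕ} (L : List (List (Fin n) × ℤ)) (q : ℕ) : ℕ :=
  (L.map fun t => if t.2 < 0 then q ^ t.1.length else 0).sum

theorem negWeight_le {n : ℕ} (L : List (List (Fin n) × ℤ)) (j : ℕ)
    (hL : ∀ t ∈ L, t.2 < 0 → t.1.length ≤ j) (q : ℕ) (hq : 1 ≤ q) :
    negWeight L q ≤ L.countP (fun t => decide (t.2 < 0)) * q ^ j := by
  induction L with
  | nil => simp [negWeight]
  | cons t L ih =>
    have ih' := ih fun s hs => hL s (List.mem_cons_of_mem _ hs)
    have ht := hL t List.mem_cons_self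
    unfold negWeight at ih' ⊢
    rw [List.map_cons, List.sum_cons, List.countP_cons]
    by_cases h : t.2 < 0
    · rw [if_pos h, if_pos (by simpa using h)]
      have := Nat.pow_le_pow_right hq (ht h)
      nlinarith
    · rw [if_neg h, if_neg (by simpa using h)]
      simpa using ih'

section Code

variable {V α : Type*} [Fintype V] [DecidableEq V] [Fintype α] [DecidableEq α] {n : ℕ}

/-- Agreement pattern of two vertices. -/
def agreeB (l : Fin n → V → α) (x y : V) : Fin n → Bool := fun i => decide (l i x = l i y)

omit [Fintype V] [DecidableEq V] [Fintype α] in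
theorem agreeB_comm (l : Fin n → V → α) (x y : V) : agreeB l x y = agreeB l y x := by
  funext i; simp [agreeB, eq_comm]

omit [Fintype V] [DecidableEq V] [Fintype α] in
theorem agreeB_self (l : Fin n → V → α) (x : V) : agreeB l x x = fun _ => true := by
  funext i; simp [agreeB]

/-- The graph attached to a signed list of monomials and a family of coordinate functions. -/
def codeGraph (l : Fin n → V → α) (L : List (List (Fin n) × ℤ))
    (htop : evalB L (fun _ => true) = 0) : SimpleGraph V where
  Adj x y := evalB L (agreeB l x y) = 1
  symm := ⟨fun x y h => by rw [agreeB_comm]; exact h⟩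
  loopless := ⟨fun x h => by
    rw [agreeB_self, htop] at h
    exact absurd h (by norm_num)⟩

instance (l : Fin n → V → α) (L : List (List (Fin n) × ℤ))
    (htop : evalB L (fun _ => true) = 0) : DecidableRel (codeGraph l L htop).Adj := fun x y =>
  inferInstanceAs (Decidable (evalB L (agreeB l x y) = 1))

theorem code_inertia (l : Fin n → V → α) (L : List (List (Fin n) × ℤ))
    (htop : evalB L (fun _ => true) = 0)
    (hbool : ∀ x y : V, evalB L (agreeB l x y) = 0 ∨ evalB L (agreeB l x y) = 1)
    (T : List (Fin n)) (c : ℤ) (hT : (T, c) ∈ L) (hc : 0 < c)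
    (hinj : ∀ x y : V, (∀ i ∈ T, l i x = l i y) → x = y) :
    Fintype.card V ≤ nPlus (codeGraph l L htop) + negWeight L (Fintype.card α) ∧
    nMinus (codeGraph l L htop) ≤ negWeight L (Fintype.card α) := by
  classical
  obtain ⟨j0, hj0⟩ := List.mem_iff_get.1 hT
  have hcard : ∑ j ∈ univ.filter (fun j : Fin L.length => (L.get j).2 < 0),
      Fintype.card (Fin (L.get j).1.length → α) = negWeight L (Fintype.card α) := by
    unfold negWeight
    rw [Finset.sum_filter]
    have : ∀ j : Fin L.length, (if (L.get j).2 < 0 then
        Fintype.card (Fin (L.get j).1.length → α) else 0) =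
        (L.map fun t => if t.2 < 0 then (Fintype.card α) ^ t.1.length else 0).get
          ⟨j.1, by simp⟩ := by
      intro j
      simp
    rw [Finset.sum_congr rfl fun j _ => this j]
    rw [← List.sum_ofFn]
    congr 1
    apply List.ext_getElem
    · simp
    · intro i h1 h2
      simp
  rw [← hcard]
  refine part_inertia (codeGraph l L htop)
    (fun j : Fin L.length => fun x : V => fun k : Fin (L.get j).1.length =>
      l ((L.get j).1.get k) x) (fun j => (L.get j).2) ?_ j0 ?_ ?_
  · intro x y
    have h1 : ∀ j : Fin L.length, ((fun k : Fin (L.get j).1.length =>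
        l ((L.get j).1.get k) x) = fun k => l ((L.get j).1.get k) y) ↔
        (L.get j).1.all (agreeB l x y) = true := by
      intro j
      rw [List.all_eq_true]
      constructor
      · intro h i hi
        obtain ⟨k, hk⟩ := List.mem_iff_get.1 hi
        have := congrFun h k
        simp only [hk] at this
        simpa [agreeB] using this
      · intro h
        funext k
        have := h _ (List.get_mem _ k)
        simpa [agreeB] using this
    have h2 : (∑ j : Fin L.length, if ((fun k : Fin (L.get j).1.length =>
        l ((L.get j).1.get k) x) = fun k => l ((L.get j).1.get k) y) then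
        (L.get j).2 else 0) = evalB L (agreeB l x y) := by
      rw [evalB_eq_sum]
      refine Finset.sum_congr rfl fun j _ => ?_
      simp only [h1 j]
    rw [h2]
    by_cases h : (codeGraph l L htop).Adj x y
    · rw [if_pos h]; exact h
    · rw [if_neg h]
      rcases hbool x y with h0 | h1'
      · exact h0
      · exact absurd h1' h
  · intro x y hxy
    apply hinj
    intro i hi
    have hi' : i ∈ (L.get j0).1 := by rw [hj0]; exact hi
    obtain ⟨k, hk⟩ := List.mem_iff_get.1 hi'
    have := congrFun hxy k
    simp only [hk] at this
    exact this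
  · rw [hj0]; exact hc

end Code

/-- Checking a signed list of monomials on all Boolean vectors satisfying a closure test. -/
theorem bool_of_check {n : ℕ} (L : List (List (Fin n) × ℤ)) (cl : (Fin n → Bool) → Bool)
    (h : ∀ s < 2 ^ n, (!(cl fun i => s.testBit i) ||
      (evalB L (fun i => s.testBit i) == 0 || evalB L (fun i => s.testBit i) == 1)) = true)
    (b : Fin n → Bool) (hb : cl b = true) : evalB L b = 0 ∨ evalB L b = 1 := by
  have hs := h (Nat.ofBits b) (Nat.ofBits_lt_two_pow b)
  have hbits : (fun i : Fin n => (Nat.ofBits b).testBit i) = b := by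
    funext i
    simp
  rw [hbits, hb] at hs
  simpa using hs

end Pool.Agent.Helper16.Inertia
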