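import Mathlib

namespace Pool.Agent.Helper16.Inertia

open Matrix Finset

section Hermitian

variable {V : Type*} [Fintype V] [DecidableEq V]

theorem quad_eq_sum (A : Matrix V V ℝ) (hA : A.IsHermitian) (v : V → ℝ) :
    v ⬝ᵥ A *ᵥ v =
      ∑ i, hA.eigenvalues i *
        ((star (hA.eigenvectorUnitary : Matrix V V ℝ) *ᵥ v) i) ^ 2 := by
  set U : Matrix V V ℝ := (hA.eigenvectorUnitary : Matrix V V ℝ) with hU
  have h1 : A = U * diagonal hA.eigenvalues * star U := by
    conv_lhs => rw [hA.spectral_theorem]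
    rw [Unitary.conjStarAlgAut_apply]
    rfl
  have h2 : A *ᵥ v = U *ᵥ (diagonal hA.eigenvalues *ᵥ (star U *ᵥ v)) := by
    conv_lhs => rw [h1]
    rw [← mulVec_mulVec, ← mulVec_mulVec]
  rw [h2, dotProduct_mulVec]
  have h3 : v ᵥ* U = star U *ᵥ v := by
    rw [← mulVec_transpose]
    rfl
  rw [h3]
  simp only [dotProduct, mulVec_diagonal]
  refine Finset.sum_congr rfl fun i _ => ?_
  ring

theorem star_unitary_mulVec_injective (A : Matrix V V ℝ) (hA : A.IsHermitian) (v : V → ℝ)
    (h : star (hA.eigenvectorUnitary : Matrix V V ℝ) *ᵥ v = 0) : v = 0 := by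
  have h1 : (hA.eigenvectorUnitary : Matrix V V ℝ) *
      star (hA.eigenvectorUnitary : Matrix V V ℝ) = 1 :=
    Unitary.coe_mul_star_self hA.eigenvectorUnitary
  have h2 : (hA.eigenvectorUnitary : Matrix V V ℝ) *ᵥ
      (star (hA.eigenvectorUnitary : Matrix V V ℝ) *ᵥ v) = v := by
    rw [mulVec_mulVec, h1, one_mulVec]
  rw [← h2, h, mulVec_zero]

theorem card_le_pos_add (A : Matrix V V ℝ) (hA : A.IsHermitian) {K : Type*} [Fintype K]
    (L : (V → ℝ) →ₗ[ℝ] (K → ℝ))
    (h : ∀ v, L v = 0 → v ≠ 0 → 0 < v ⬝ᵥ A *ᵥ v) :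
    Fintype.card V ≤ (univ.filter fun i => 0 < hA.eigenvalues i).card + Fintype.card K := by
  classical
  let W : (V → ℝ) →ₗ[ℝ] (V → ℝ) :=
    (star (hA.eigenvectorUnitary : Matrix V V ℝ)).mulVecLin
  let R : (V → ℝ) →ₗ[ℝ] ({i // 0 < hA.eigenvalues i} → ℝ) :=
    (LinearMap.funLeft ℝ ℝ (fun i : {i // 0 < hA.eigenvalues i} => (i : V))).comp W
  let Φ : (V → ℝ) →ₗ[ℝ] ({i // 0 < hA.eigenvalues i} → ℝ) × (K → ℝ) := R.prod L
  have hinj : Function.Injective Φ := by
    rw [← LinearMap.ker_eq_bot, LinearMap.ker_eq_bot']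
    intro v hv
    by_contra hne
    have hR : R v = 0 := congrArg Prod.fst hv
    have hL : L v = 0 := congrArg Prod.snd hv
    have hpos := h v hL hne
    rw [quad_eq_sum A hA v] at hpos
    have hle : ∑ i, hA.eigenvalues i *
        ((star (hA.eigenvectorUnitary : Matrix V V ℝ) *ᵥ v) i) ^ 2 ≤ 0 := by
      refine Finset.sum_nonpos fun i _ => ?_
      by_cases hi : 0 < hA.eigenvalues i
      · have : (star (hA.eigenvectorUnitary : Matrix V V ℝ) *ᵥ v) i = 0 :=
          congrFun hR ⟨i, hi⟩
        rw [this]; simp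
      · exact mul_nonpos_of_nonpos_of_nonneg (not_lt.mp hi) (sq_nonneg _)
    linarith
  have hfin := LinearMap.finrank_le_finrank_of_injective hinj
  rw [Module.finrank_prod, Module.finrank_fintype_fun_eq_card, Module.finrank_fintype_fun_eq_card,
    Module.finrank_fintype_fun_eq_card, Fintype.card_subtype] at hfin
  exact hfin

theorem neg_le_card (A : Matrix V V ℝ) (hA : A.IsHermitian) {K : Type*} [Fintype K]
    (L : (V → ℝ) →ₗ[ℝ] (K → ℝ))
    (h : ∀ v, L v = 0 → v ≠ 0 → 0 < v ⬝ᵥ A *ᵥ v) :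
    (univ.filter fun i => hA.eigenvalues i < 0).card ≤ Fintype.card K := by
  classical
  let S := {i // hA.eigenvalues i < 0}
  -- extension by zero
  let E : (S → ℝ) →ₗ[ℝ] (V → ℝ) :=
    { toFun := fun c i => if hi : hA.eigenvalues i < 0 then c ⟨i, hi⟩ else 0
      map_add' := by
        intro a b; funext i; by_cases hi : hA.eigenvalues i < 0 <;> simp [hi]
      map_smul' := by
        intro a b; funext i; by_cases hi : hA.eigenvalues i < 0 <;> simp [hi] }
  let W : (V → ℝ) →ₗ[ℝ] (V → ℝ) := (hA.eigenvectorUnitary : Matrix V V ℝ).mulVecLin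
  have hinj : Function.Injective (L.comp (W.comp E)) := by
    rw [← LinearMap.ker_eq_bot, LinearMap.ker_eq_bot']
    intro c hc
    set v : V → ℝ := W (E c) with hv
    have hL : L v = 0 := hc
    have hstar : star (hA.eigenvectorUnitary : Matrix V V ℝ) *ᵥ v = E c := by
      have h1 : star (hA.eigenvectorUnitary : Matrix V V ℝ) *
          (hA.eigenvectorUnitary : Matrix V V ℝ) = 1 :=
        Unitary.coe_star_mul_self hA.eigenvectorUnitary
      show star (hA.eigenvectorUnitary : Matrix V V ℝ) *ᵥ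
        ((hA.eigenvectorUnitary : Matrix V V ℝ) *ᵥ (E c)) = E c
      rw [mulVec_mulVec, h1, one_mulVec]
    have hzero : v = 0 := by
      by_contra hne
      have hpos := h v hL hne
      rw [quad_eq_sum A hA v, hstar] at hpos
      have hle : ∑ i, hA.eigenvalues i * (E c i) ^ 2 ≤ 0 := by
        refine Finset.sum_nonpos fun i _ => ?_
        by_cases hi : hA.eigenvalues i < 0
        · exact mul_nonpos_of_nonpos_of_nonneg hi.le (sq_nonneg _)
        · have : E c i = 0 := by simp [E, hi]
          rw [this]; simp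
      linarith
    have hE : E c = 0 := by rw [← hstar, hzero, mulVec_zero]
    funext i
    have := congrFun hE i.1
    simpa [E, i.2] using this
  have hfin := LinearMap.finrank_le_finrank_of_injective hinj
  rw [Module.finrank_fintype_fun_eq_card, Module.finrank_fintype_fun_eq_card,
    Fintype.card_subtype] at hfin
  exact hfin

end Hermitian

end Pool.Agent.Helper16.Inertia
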