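import Pool.Agent.Helper16.Inertia

namespace Pool.Agent.Helper16.Inertia

open Matrix Finset

/-- The number of positive eigenvalues (with multiplicity) of the real adjacency matrix. -/
noncomputable def nPlus {V : Type*} [Fintype V] (G : SimpleGraph V) : ℕ := by
  classical
  exact ((G.adjMatrix ℝ).charpoly.roots.filter fun x => 0 < x).card

/-- The number of negative eigenvalues (with multiplicity) of the real adjacency matrix. -/
noncomputable def nMinus {V : Type*} [Fintype V] (G : SimpleGraph V) : ℕ := by
  classical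
  exact ((G.adjMatrix ℝ).charpoly.roots.filter fun x => x < 0).card

theorem adjHerm {V : Type*} [Fintype V] [DecidableEq V] (G : SimpleGraph V)
    [DecidableRel G.Adj] : (G.adjMatrix ℝ).IsHermitian := by
  rw [Matrix.IsHermitian, Matrix.conjTranspose_eq_transpose_of_trivial]
  exact G.isSymm_adjMatrix

theorem nPlus_eq {V : Type*} [Fintype V] [DecidableEq V] (G : SimpleGraph V)
    [DecidableRel G.Adj] :
    nPlus G = (univ.filter fun i => 0 < (adjHerm G).eigenvalues i).card := by
  classical
  have h := (adjHerm G).roots_charpoly_eq_eigenvalues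
  have h2 : nPlus G = ((G.adjMatrix ℝ).charpoly.roots.filter fun x => 0 < x).card := by
    unfold nPlus
    congr
  rw [h2, h, Multiset.filter_map, Multiset.card_map]
  rfl

theorem nMinus_eq {V : Type*} [Fintype V] [DecidableEq V] (G : SimpleGraph V)
    [DecidableRel G.Adj] :
    nMinus G = (univ.filter fun i => (adjHerm G).eigenvalues i < 0).card := by
  classical
  have h := (adjHerm G).roots_charpoly_eq_eigenvalues
  have h2 : nMinus G = ((G.adjMatrix ℝ).charpoly.roots.filter fun x => x < 0).card := by
    unfold nMinus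
    congr
  rw [h2, h, Multiset.filter_map, Multiset.card_map]
  rfl

theorem comap_charpoly {V W : Type*} [Fintype V] [Fintype W] [DecidableEq V] [DecidableEq W]
    (e : W ≃ V) (G : SimpleGraph V) [DecidableRel G.Adj] [DecidableRel (G.comap e).Adj] :
    ((G.comap e).adjMatrix ℝ).charpoly = (G.adjMatrix ℝ).charpoly := by
  have : (G.comap e).adjMatrix ℝ = Matrix.reindex e.symm e.symm (G.adjMatrix ℝ) := by
    ext x y
    simp [SimpleGraph.adjMatrix_apply]
  rw [this, Matrix.charpoly_reindex]

theorem nPlus_comap {V W : Type*} [Fintype V] [Fintype W] (e : W ≃ V) (G : SimpleGraph V) :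
    nPlus (G.comap e) = nPlus G := by
  classical
  unfold nPlus
  rw [comap_charpoly]

theorem nMinus_comap {V W : Type*} [Fintype V] [Fintype W] (e : W ≃ V) (G : SimpleGraph V) :
    nMinus (G.comap e) = nMinus G := by
  classical
  unfold nMinus
  rw [comap_charpoly]

section Partition

variable {V : Type*} [Fintype V] [DecidableEq V]
variable {J : Type*} [Fintype J] {K : J → Type*} [∀ j, Fintype (K j)] [∀ j, DecidableEq (K j)]

omit [DecidableEq V] in
theorem part_term {κ : Type*} [Fintype κ] [DecidableEq κ] (p : V → κ) (v : V → ℝ) :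
    ∑ x, ∑ y, v x * ((if p x = p y then (1 : ℝ) else 0) * v y) =
      ∑ a : κ, (∑ x, if p x = a then v x else 0) ^ 2 := by
  have h1 : ∀ a : κ, (∑ x, if p x = a then v x else 0) ^ 2 =
      ∑ x, ∑ y, (if p x = a then v x else 0) * (if p y = a then v y else 0) := by
    intro a
    rw [sq, Finset.sum_mul_sum]
  have h2 : ∀ x y, v x * ((if p x = p y then (1 : ℝ) else 0) * v y) =
      ∑ a : κ, (if p x = a then v x else 0) * (if p y = a then v y else 0) := by
    intro x y
    rw [Finset.sum_eq_single (p x)]
    · rw [if_pos rfl]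
      by_cases h : p x = p y
      · rw [if_pos h, if_pos h.symm]; ring
      · rw [if_neg h, if_neg fun h' => h h'.symm]; ring
    · intro b _ hb
      rw [if_neg (Ne.symm hb)]; ring
    · intro h; exact absurd (mem_univ _) h
  calc ∑ x, ∑ y, v x * ((if p x = p y then (1 : ℝ) else 0) * v y)
      = ∑ x, ∑ y, ∑ a : κ, (if p x = a then v x else 0) * (if p y = a then v y else 0) := by
        refine Finset.sum_congr rfl fun x _ => Finset.sum_congr rfl fun y _ => h2 x y
    _ = ∑ x, ∑ a : κ, ∑ y, (if p x = a then v x else 0) * (if p y = a then v y else 0) := by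
        refine Finset.sum_congr rfl fun x _ => ?_
        rw [Finset.sum_comm]
    _ = ∑ a : κ, ∑ x, ∑ y, (if p x = a then v x else 0) * (if p y = a then v y else 0) := by
        rw [Finset.sum_comm]
    _ = _ := Finset.sum_congr rfl fun a _ => (h1 a).symm

theorem part_quad (G : SimpleGraph V) [DecidableRel G.Adj] (p : ∀ j, V → K j) (c : J → ℤ)
    (hA : ∀ x y, (∑ j, if p j x = p j y then c j else 0) = if G.Adj x y then 1 else 0)
    (v : V → ℝ) :
    v ⬝ᵥ G.adjMatrix ℝ *ᵥ v =
      ∑ j, (c j : ℝ) * ∑ a : K j, (∑ x, if p j x = a then v x else 0) ^ 2 := by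
  have h0 : ∀ x y, G.adjMatrix ℝ x y = ∑ j, (c j : ℝ) * (if p j x = p j y then 1 else 0) := by
    intro x y
    have h1 : ∑ j, (c j : ℝ) * (if p j x = p j y then 1 else 0) =
        ((∑ j, if p j x = p j y then c j else 0 : ℤ) : ℝ) := by
      push_cast
      refine Finset.sum_congr rfl fun j _ => ?_
      split_ifs <;> simp
    rw [h1, hA, SimpleGraph.adjMatrix_apply]
    split_ifs <;> simp
  have h1 : v ⬝ᵥ G.adjMatrix ℝ *ᵥ v =
      ∑ x, ∑ y, v x * ((∑ j, (c j : ℝ) * (if p j x = p j y then 1 else 0)) * v y) := by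
    simp only [dotProduct, mulVec]
    refine Finset.sum_congr rfl fun x _ => ?_
    rw [Finset.mul_sum]
    refine Finset.sum_congr rfl fun y _ => ?_
    rw [h0]
  rw [h1]
  simp_rw [← part_term, Finset.mul_sum]
  have h2 : ∀ x y, v x * ((∑ j, (c j : ℝ) * (if p j x = p j y then 1 else 0)) * v y) =
      ∑ j, (c j : ℝ) * (v x * ((if p j x = p j y then (1 : ℝ) else 0) * v y)) := by
    intro x y
    rw [Finset.sum_mul, Finset.mul_sum]
    refine Finset.sum_congr rfl fun j _ => ?_
    ring
  simp_rw [h2]
  calc ∑ x, ∑ y, ∑ j, (c j : ℝ) * (v x * ((if p j x = p j y then (1 : ℝ) else 0) * v y))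
      = ∑ x, ∑ j, ∑ y, (c j : ℝ) * (v x * ((if p j x = p j y then (1 : ℝ) else 0) * v y)) := by
        refine Finset.sum_congr rfl fun x _ => ?_
        rw [Finset.sum_comm]
    _ = ∑ j, ∑ x, ∑ y, (c j : ℝ) * (v x * ((if p j x = p j y then (1 : ℝ) else 0) * v y)) := by
        rw [Finset.sum_comm]

/-- Index type of the linear constraints. -/
abbrev PIdx (K : J → Type*) (c : J → ℤ) : Type _ := Σ j : {j // c j < 0}, K j.1

/-- Sums of a function over the classes of all negative partitions. -/
noncomputable def pmap (p : ∀ j, V → K j) (c : J → ℤ) : (V → ℝ) →ₗ[ℝ] (PIdx K c → ℝ) where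
  toFun v k := ∑ x, if p k.1.1 x = k.2 then v x else 0
  map_add' v w := by
    funext k
    simp only [Pi.add_apply]
    rw [← Finset.sum_add_distrib]
    refine Finset.sum_congr rfl fun x _ => ?_
    split_ifs <;> simp
  map_smul' r v := by
    funext k
    simp only [Pi.smul_apply, smul_eq_mul, RingHom.id_apply]
    rw [Finset.mul_sum]
    refine Finset.sum_congr rfl fun x _ => ?_
    split_ifs <;> simp

theorem part_pos (G : SimpleGraph V) [DecidableRel G.Adj] (p : ∀ j, V → K j) (c : J → ℤ)
    (hA : ∀ x y, (∑ j, if p j x = p j y then c j else 0) = if G.Adj x y then 1 else 0)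
    (j0 : J) (hinj : Function.Injective (p j0)) (hc0 : 0 < c j0)
    (v : V → ℝ) (hL : pmap p c v = 0) (hv : v ≠ 0) :
    0 < v ⬝ᵥ G.adjMatrix ℝ *ᵥ v := by
  rw [part_quad G p c hA]
  have hnn : ∀ j ∈ (univ : Finset J), 0 ≤ (c j : ℝ) * ∑ a : K j,
        (∑ x, if p j x = a then v x else 0) ^ 2 := by
    intro j _
    by_cases hj : c j < 0
    · have : ∀ a : K j, (∑ x, if p j x = a then v x else 0) = 0 := by
        intro a
        exact congrFun hL ⟨⟨j, hj⟩, a⟩
      simp [this]
    · have : (0 : ℝ) ≤ c j := by exact_mod_cast not_lt.mp hj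
      exact mul_nonneg this (Finset.sum_nonneg fun a _ => sq_nonneg _)
  refine lt_of_lt_of_le ?_ (Finset.single_le_sum hnn (mem_univ j0))
  have hc : (0 : ℝ) < c j0 := by exact_mod_cast hc0
  refine mul_pos hc ?_
  obtain ⟨x0, hx0⟩ : ∃ x, v x ≠ 0 := by
    by_contra h
    push Not at h
    exact hv (funext h)
  refine Finset.sum_pos' (fun a _ => sq_nonneg _) ⟨p j0 x0, mem_univ _, ?_⟩
  have : (∑ x, if p j0 x = p j0 x0 then v x else 0) = v x0 := by
    rw [Finset.sum_eq_single x0]
    · simp
    · intro b _ hb
      rw [if_neg]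
      intro h
      exact hb (hinj h)
    · intro h; exact absurd (mem_univ _) h
  rw [this]
  positivity

omit [∀ j, DecidableEq (K j)] in
theorem card_PIdx (c : J → ℤ) :
    Fintype.card (PIdx K c) = ∑ j ∈ univ.filter (fun j => c j < 0), Fintype.card (K j) := by
  rw [Fintype.card_sigma, ← Finset.sum_subtype_eq_sum_filter]
  simp

/-- Main linear algebra tool: if the adjacency matrix is an integer combination of
same-class matrices of partitions, and some partition into singletons has positive
coefficient, then the inertia is controlled by the partitions with negative coefficient. -/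
theorem part_inertia (G : SimpleGraph V) [DecidableRel G.Adj] (p : ∀ j, V → K j) (c : J → ℤ)
    (hA : ∀ x y, (∑ j, if p j x = p j y then c j else 0) = if G.Adj x y then 1 else 0)
    (j0 : J) (hinj : Function.Injective (p j0)) (hc0 : 0 < c j0) :
    Fintype.card V ≤ nPlus G + ∑ j ∈ univ.filter (fun j => c j < 0), Fintype.card (K j) ∧
    nMinus G ≤ ∑ j ∈ univ.filter (fun j => c j < 0), Fintype.card (K j) := by
  rw [nPlus_eq, nMinus_eq, ← card_PIdx (K := K) c]
  exact ⟨card_le_pos_add _ _ (pmap p c) fun v hL hv => part_pos G p c hA j0 hinj hc0 v hL hv,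
    neg_le_card _ _ (pmap p c) fun v hL hv => part_pos G p c hA j0 hinj hc0 v hL hv⟩

end Partition

end Pool.Agent.Helper16.Inertia
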